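import Mathlib
import Pool.Agent.Helper22.GC.Bridge

/-!
# The circle error along arithmetic progressions of radii, in short segments

For `P(R) = #{(a, b) ∈ ℤ² : a² + b² ≤ R²} - π R²` we compare, in mean square over the radii
`R = α n + β` with `M < n ≤ M + H`, the normalised error `P(R) / √R` with the partial sums of
Hardy's series.
-/

namespace Pool.Agent.Helper78.Keep.APMeanSquareHardy

/-- The error term `P(R) = F(R) - π R²` of the circle problem. -/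
noncomputable def circleError (R : ℝ) : ℝ :=
  (Nat.card {p : ℤ × ℤ // (p.1 : ℝ) ^ 2 + (p.2 : ℝ) ^ 2 ≤ R ^ 2} : ℝ) - Real.pi * R ^ 2

/-- The number of representations of `k` as a sum of two integer squares. -/
noncomputable def rep2 (k : ℕ) : ℕ := Nat.card {p : ℤ × ℤ // p.1 ^ 2 + p.2 ^ 2 = (k : ℤ)}

/-- The partial sum `(1 / π) ∑_{1 ≤ k ≤ K} r₂(k) k^{-3/4} cos (2 π √k R - 3 π / 4)` of Hardy's
series for `P(R) / √R`. -/
noncomputable def hardySum (K : ℕ) (R : ℝ) : ℝ :=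
  1 / Real.pi * ∑ k ∈ Finset.Icc 1 K,
    (rep2 k : ℝ) / (k : ℝ) ^ (3 / 4 : ℝ) * Real.cos (2 * Real.pi * √k * R - 3 * Real.pi / 4)

open Pool.Agent.Helper22.GC in
theorem result (α β ε : ℝ) (hα : 0 < α) (hε : 0 < ε) :
    ∃ (C : ℝ) (M₀ : ℕ), ∀ M H K : ℕ, M₀ ≤ M → 1 ≤ H → H ≤ M →
      1 ≤ K → (K : ℝ) ≤ ((H : ℝ) * M) ^ (2 / 3 : ℝ) →
      (∀ n ∈ Finset.Ioc M (M + H), 0 < α * n + β) ∧
      ∑ n ∈ Finset.Ioc M (M + H),
        (circleError (α * n + β) / √(α * n + β) - hardySum K (α * n + β)) ^ 2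
        ≤ C * (H * (K : ℝ) ^ (-(1 / 4) + ε) + ((H : ℝ) * M) ^ (1 / 3 + ε)) := by
  set η : ℝ := min (ε / 2) (1 / 16) with hη
  have hη0 : 0 < η := lt_min (by linarith) (by norm_num)
  have hη1 : η < 1 / 8 := lt_of_le_of_lt (min_le_right _ _) (by norm_num)
  have hη2 : 2 * η ≤ ε := by
    have := min_le_left (ε / 2) (1 / 16 : ℝ)
    linarith
  obtain ⟨C, M₀, hC, hmain⟩ := approx_main α β hα hη0 hη1
  refine ⟨2 * C ^ 2, M₀, ?_⟩
  intro M H K hM hH hHM hK hKM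
  obtain ⟨hpos, hN⟩ := hmain M H K hM hH hHM hK hKM
  have hMr : (1 : ℝ) ≤ M := by exact_mod_cast (by omega : 1 ≤ M)
  have hHr : (1 : ℝ) ≤ H := by exact_mod_cast hH
  have hKr : (1 : ℝ) ≤ K := by exact_mod_cast hK
  have hK0 : (0 : ℝ) < K := by linarith
  have hP1 : 1 ≤ (H : ℝ) * M := one_le_mul_of_one_le_of_one_le hHr hMr
  have hP0 : 0 < (H : ℝ) * M := by linarith
  have hcast : ∀ i : ℕ, α * ((M + 1 + i : ℕ) : ℝ) + β = α * (M + 1) + β + α * i := by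
    intro i; push_cast; ring
  have hIoc : Finset.Ioc M (M + H) = Finset.Ico (M + 1) (M + 1 + H) := by
    ext n; rw [Finset.mem_Ioc, Finset.mem_Ico]; omega
  constructor
  · intro n hn
    rw [hIoc, Finset.mem_Ico] at hn
    obtain ⟨i, rfl⟩ := Nat.exists_eq_add_of_le hn.1
    rw [hcast]
    linarith [hpos i]
  · have hTK : ∀ R, hardySum K R = TK K R := by
      intro R
      rw [TK_eq, hardySum]
      simp only [rep2, gr_eq_card]
    have hPe : ∀ R, circleError R = Pe R := fun R => by rw [Pe_eq, circleError]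
    have hsum : ∑ n ∈ Finset.Ioc M (M + H),
        (circleError (α * n + β) / √(α * n + β) - hardySum K (α * n + β)) ^ 2
        = N2 H (fun n => ((Pe (α * (M + 1) + β + α * n) / √(α * (M + 1) + β + α * n)
        - TK K (α * (M + 1) + β + α * n) : ℝ) : ℂ)) ^ 2 := by
      rw [N2_sq, hIoc, Finset.sum_Ico_eq_sum_range]
      have : M + 1 + H - (M + 1) = H := by omega
      rw [this]
      refine Finset.sum_congr rfl fun i _ => ?_
      rw [Complex.norm_real, Real.norm_eq_abs, sq_abs, hTK, hPe, hcast]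
    rw [hsum]
    have h1 := pow_le_pow_left₀ (N2_nonneg _ _) hN 2
    refine h1.trans ?_
    have hK1 : ((K : ℝ) ^ (-(1 / 8) + η)) ^ 2 ≤ (K : ℝ) ^ (-(1 / 4) + ε) := by
      rw [← Real.rpow_natCast, ← Real.rpow_mul hK0.le]
      exact Real.rpow_le_rpow_of_exponent_le hKr (by push_cast; linarith)
    have hP2 : ((((H : ℝ) * M)) ^ (1 / 6 + η)) ^ 2 ≤ ((H : ℝ) * M) ^ (1 / 3 + ε) := by
      rw [← Real.rpow_natCast, ← Real.rpow_mul hP0.le]
      exact Real.rpow_le_rpow_of_exponent_le hP1 (by push_cast; linarith)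
    have hs : √(H : ℝ) ^ 2 = H := Real.sq_sqrt (Nat.cast_nonneg H)
    have hsq : ∀ a b : ℝ, (a + b) ^ 2 ≤ 2 * (a ^ 2 + b ^ 2) := fun a b => by
      nlinarith [sq_nonneg (a - b)]
    calc (C * (√H * (K : ℝ) ^ (-(1 / 8) + η) + ((H : ℝ) * M) ^ (1 / 6 + η))) ^ 2
        = C ^ 2 * (√H * (K : ℝ) ^ (-(1 / 8) + η) + ((H : ℝ) * M) ^ (1 / 6 + η)) ^ 2 := by ring
      _ ≤ C ^ 2 * (2 * ((√H * (K : ℝ) ^ (-(1 / 8) + η)) ^ 2
            + (((H : ℝ) * M) ^ (1 / 6 + η)) ^ 2)) :=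
          mul_le_mul_of_nonneg_left (hsq _ _) (sq_nonneg C)
      _ = 2 * C ^ 2 * (√(H : ℝ) ^ 2 * ((K : ℝ) ^ (-(1 / 8) + η)) ^ 2
            + (((H : ℝ) * M) ^ (1 / 6 + η)) ^ 2) := by ring
      _ ≤ 2 * C ^ 2 * (H * (K : ℝ) ^ (-(1 / 4) + ε) + ((H : ℝ) * M) ^ (1 / 3 + ε)) := by
          rw [hs]
          gcongr

end Pool.Agent.Helper78.Keep.APMeanSquareHardy
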