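import Pool.Agent.Helper78.CA.Fin
import Pool.Agent.Helper78.CA.EPall
import Pool.Agent.Helper78.CA.HHp

set_option autoImplicit false

/-!
Confluent images of arc-like continua: if every proper nondegenerate subcontinuum of the image
is decomposable, then the image is arc-like.
-/

namespace Pool.Agent.Results.MP_05c474_gt.DecomposableSubcontinua

/-- Let `X` be an arc-like continuum and let `f` be a confluent map of `X` onto a continuum `Y`
such that every proper subcontinuum of `Y` with at least two points is the union of two proper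
subcontinua of itself. Then `Y` is arc-like. -/
theorem result :
    ∀ (X Y : Type) [MetricSpace X] [CompactSpace X] [ConnectedSpace X]
      [MetricSpace Y] [CompactSpace Y] [ConnectedSpace Y] (f : X → Y),
      (∀ ε : ℝ, 0 < ε → ∃ g : X → ℝ, Continuous g ∧ Set.range g ⊆ Set.Icc 0 1 ∧
          ∀ t : ℝ, Metric.diam (g ⁻¹' {t}) < ε) →
      Continuous f →
      Function.Surjective f →
      (∀ K : Set Y, IsCompact K → IsConnected K →
          ∀ x ∈ f ⁻¹' K, f '' connectedComponentIn (f ⁻¹' K) x = K) →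
      (∀ K : Set Y, IsCompact K → IsConnected K → K ≠ Set.univ → K.Nontrivial →
          ∃ A B : Set Y, IsCompact A ∧ IsConnected A ∧ IsCompact B ∧ IsConnected B ∧
            A ∪ B = K ∧ A ≠ K ∧ B ≠ K) →
      (∀ ε : ℝ, 0 < ε → ∃ h : Y → ℝ, Continuous h ∧ Set.range h ⊆ Set.Icc 0 1 ∧
          ∀ t : ℝ, Metric.diam (h ⁻¹' {t}) < ε) := by
  intro X Y _ _ _ _ _ _ f hX hf hsurj hconf hdec
  have hdec' : ∀ K : Set Y, CArc.Cont K → K ≠ Set.univ → K.Nontrivial → CArc.Decomp K := by
    intro K hK hu hn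
    obtain ⟨A, B, hA1, hA2, hB1, hB2, h1, h2, h3⟩ := hdec K hK.1 hK.2 hu hn
    exact ⟨A, B, ⟨hA1, hA2⟩, ⟨hB1, hB2⟩, h1, h2, h3⟩
  exact CArc.arclike_of_ep (X := X) (Y := Y) hX hf hsurj
    (fun N hN ψ hψ hψN K hK hKu =>
      CArc.ep_all hf hconf (CArc.hh_of_arclike hX hf hsurj hconf) hdec' hN hψ hψN hK hKu)

end Pool.Agent.Results.MP_05c474_gt.DecomposableSubcontinua
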