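import Mathlib
import Pool.Agent.Helper78.BI.Final
import Pool.Agent.Helper78.BI.Avg
import Pool.Agent.Helper78.BI.NumM
import Pool.Agent.Helper78.BI.V

/-!
# A Chebyshev bias in the circle problem

At integer radii the error of the circle problem, divided by the square root of the radius, has a
limit distribution with mean `-3.26...` and more than 95 per cent of its mass on the negative side;
the same in all progressions of integers and in short segments.
-/

open MeasureTheory Filter Set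
open scoped Real

namespace Pool.Agent.Results.MP_fb29e9_nt.IntegerRadiiBias

/-- The error term `P(R) = F(R) - π R²` of the circle problem. -/
noncomputable def circleError (R : ℝ) : ℝ :=
  (Nat.card {p : ℤ × ℤ // (p.1 : ℝ) ^ 2 + (p.2 : ℝ) ^ 2 ≤ R ^ 2} : ℝ) - π * R ^ 2

/-- The number `r₂(k)` of representations of `k` as a sum of two squares. -/
noncomputable def rep2 (k : ℕ) : ℕ := Nat.card {p : ℤ × ℤ // p.1 ^ 2 + p.2 ^ 2 = (k : ℤ)}

open Pool.Agent.Helper78.GC Pool.Agent.Helper78.BI in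
theorem result :
    ∃ f : ℝ → ℝ, ContDiff ℝ (⊤ : ℕ∞) f ∧ (∀ x, 0 ≤ f x) ∧ ∫ x, f x = 1 ∧
      ∫ x, x * f x = -(1 / (√2 * π)) * ∑' j : ℕ, (rep2 (j ^ 2) : ℝ) / (j : ℝ) ^ (3 / 2 : ℝ) ∧
      -3.27 < ∫ x, x * f x ∧ ∫ x, x * f x < -3.26 ∧
      0.95 < ∫ x in Iio 0, f x ∧ ∫ x in Iio 0, f x < 1 ∧
      ∀ (d b : ℕ) (J : Set ℝ) (ε δ : ℝ), 1 ≤ d → MeasurableSet J → volume (frontier J) = 0 →
        0 < ε → 0 < δ → ∃ M₀ : ℕ, ∀ M H : ℕ, M₀ ≤ M → (M : ℝ) ^ (1 / 2 + ε) ≤ H → H ≤ M →
          |({n : ℕ | M < n ∧ n ≤ M + H ∧ circleError (d * n + b) / √(d * n + b) ∈ J}.ncard : ℝ) / H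
            - ∫ x in J, f x| < δ ∧
          |(∑ n ∈ Finset.Ioc M (M + H), circleError (d * n + b) / √(d * n + b)) / H
            - ∫ x, x * f x| < δ := by
  classical
  have hV : VarBound := fun _ hK => var_bound hK
  have hF : FourBound := fun _ hK => four_bound hK
  have hM1 := mean_bounds
  obtain ⟨f, hf, hf0, hf1, hm, h95, hlt, hlaw⟩ := main hV hF summable_M1 hM1.1
  have hser : ∑' j : ℕ, (rep2 (j ^ 2) : ℝ) / (j : ℝ) ^ (3 / 2 : ℝ) = M1 := by
    rw [M1]
    refine tsum_congr fun j => ?_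
    rw [rep2, ← Pool.Agent.Helper22.GC.gr_eq_card, Real.rpow_neg (Nat.cast_nonneg j), div_eq_mul_inv]
  refine ⟨f, hf, hf0, hf1, ?_, ?_, ?_, h95, hlt, ?_⟩
  · rw [hm, hser]; ring
  · rw [hm]; linarith [hM1.2]
  · rw [hm]; norm_num at hM1 ⊢; linarith [hM1.1]
  · intro d b J ε δ hd hJ h0 hε hδ
    have h2 := (Metric.tendsto_nhds.mp (hlaw d b J ε hd hJ h0 hε)) δ hδ
    have h2' := (Metric.tendsto_nhds.mp (avg_tendsto hV hF summable_M1 hd b hε)) δ hδ
    have h2'' := h2.and h2'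
    rw [Seg, eventually_inf_principal, eventually_comap, eventually_atTop] at h2''
    obtain ⟨M₁, hM₁⟩ := h2''
    refine ⟨M₁, fun M H hM hMH hHM => ?_⟩
    obtain ⟨h3, h4⟩ := hM₁ M hM (M, H) rfl ⟨hMH, hHM⟩
    rw [Real.dist_eq] at h3 h4
    constructor
    · refine lt_of_eq_of_lt ?_ h3
      congr 2
      rw [mr]
      simp only
      rw [Finset.sum_boole, ← Set.ncard_coe_finset, one_div, inv_mul_eq_div]
      congr 3
      ext n
      simp only [Finset.coe_filter, Finset.mem_Ioc, Set.mem_ofPred_eq, and_assoc]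
      refine and_congr_right fun _ => and_congr_right fun _ => ?_
      rw [Pool.Agent.Helper22.GC.uu, circleError, Pool.Agent.Helper22.GC.Pe_eq]
    · rw [hm]
      refine lt_of_eq_of_lt ?_ h4
      congr 2
      rw [mr]
      simp only
      rw [one_div, inv_mul_eq_div]
      congr 1
      refine Finset.sum_congr rfl fun n _ => ?_
      rw [Pool.Agent.Helper22.GC.uu, circleError, Pool.Agent.Helper22.GC.Pe_eq]

end Pool.Agent.Results.MP_fb29e9_nt.IntegerRadiiBias
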