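import Mathlib
import Pool.Agent.Helper53.GC.D3a
import Pool.Agent.Helper59.GC.SmoothDensity
import Pool.Agent.Helper78.GC.Final

/-!
# Joint limit law of the circle error along arithmetic progressions of radii

For finitely many distinct linear forms `L i n = α * r i * n + s i` the vectors of normalised errors
`P(L i n) / √(L i n)` have, in all segments `M < n ≤ M + H` with `M ^ (1/2 + ε) ≤ H ≤ M`, the same
limit distribution, which has a smooth density and full support.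
-/

open MeasureTheory Filter

namespace Pool.Agent.Results.MP_fb29e9_nt.JointLimitLaw

/-- The error term `P(R) = F(R) - π R²` of the circle problem. -/
noncomputable def circleError (R : ℝ) : ℝ :=
  (Nat.card {p : ℤ × ℤ // (p.1 : ℝ) ^ 2 + (p.2 : ℝ) ^ 2 ≤ R ^ 2} : ℝ) - Real.pi * R ^ 2

/-- The vector of the normalised errors `P(R_i) / √R_i` at the radii `R_i = α r_i n + s_i`. -/
noncomputable def errorVector {m : ℕ} (α : ℝ) (r : Fin m → ℕ) (s : Fin m → ℝ) (n : ℕ) (i : Fin m) : ℝ :=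
  circleError (α * r i * n + s i) / √(α * r i * n + s i)

open Pool.Agent.Helper78.GC in
theorem result (m : ℕ) (α : ℝ) (hα : 0 < α) (r : Fin m → ℕ) (s : Fin m → ℝ) (hr : ∀ i, 1 ≤ r i)
    (hrs : ∀ i k, r i = r k → s i = s k → i = k) :
    ∃ f : (Fin m → ℝ) → ℝ, ContDiff ℝ (⊤ : ℕ∞) f ∧ (∀ x, 0 ≤ f x) ∧ ∫ x, f x = 1 ∧
      (∀ U : Set (Fin m → ℝ), IsOpen U → U.Nonempty → 0 < ∫ x in U, f x) ∧
      ∀ J : Set (Fin m → ℝ), MeasurableSet J → volume (frontier J) = 0 →
        ∀ ε δ : ℝ, 0 < ε → 0 < δ → ∃ M₀ : ℕ, ∀ M H : ℕ, M₀ ≤ M → (M : ℝ) ^ (1 / 2 + ε) ≤ H → H ≤ M →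
          (∀ n : ℕ, M < n → ∀ i, 0 < α * r i * n + s i) ∧
          |({n : ℕ | M < n ∧ n ≤ M + H ∧ errorVector α r s n ∈ J}.ncard : ℝ) / H - ∫ x in J, f x| < δ := by
  classical
  obtain ⟨f, hf, hf0, hf1, hU, hJ⟩ := joint_limit (ι := Fin m) (fun μ C c hc h => Pool.Agent.Helper59.GC.D2s μ C c hc h) hα hr hrs
    (Pool.Agent.Helper53.GC.D3a_lower hr hrs) (Pool.Agent.Helper53.GC.D3a_upper hr)
  refine ⟨f, hf, hf0, hf1, hU, ?_⟩
  intro J hJm hJ0 ε δ hε hδ
  have h1 := hJ J hJm hJ0 ε hε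
  have h2 := (Metric.tendsto_nhds.mp h1) δ hδ
  -- unfold the filter
  rw [Seg, eventually_inf_principal, eventually_comap, eventually_atTop] at h2
  obtain ⟨M₁, hM₁⟩ := h2
  obtain ⟨M₂, hM₂⟩ := exists_nat_ge (∑ i, |s i| / α)
  refine ⟨max (max M₁ M₂) 1, fun M H hM hMH hHM => ⟨?_, ?_⟩⟩
  · intro n hn i
    have hn2 : (M₂ : ℝ) < n := by
      exact_mod_cast lt_of_le_of_lt (le_trans (le_trans (le_max_right _ _) (le_max_left _ _)) hM) hn
    have h3 : |s i| / α ≤ ∑ i, |s i| / α :=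
      Finset.single_le_sum (fun i _ => div_nonneg (abs_nonneg (s i)) hα.le) (Finset.mem_univ i)
    have h4 : |s i| / α < n := by linarith
    rw [div_lt_iff₀ hα] at h4
    have h5 := neg_abs_le (s i)
    have h6 : (1 : ℝ) ≤ r i := by exact_mod_cast hr i
    have h7 : (0 : ℝ) ≤ n := Nat.cast_nonneg n
    nlinarith [mul_nonneg hα.le h7, mul_le_mul_of_nonneg_left h6 (mul_nonneg hα.le h7)]
  · have h3 := hM₁ M (le_trans (le_trans (le_max_left _ _) (le_max_left _ _)) hM) (M, H) rfl ⟨hMH, hHM⟩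
    rw [Real.dist_eq] at h3
    refine lt_of_eq_of_lt ?_ h3
    congr 2
    rw [mr]
    simp only
    rw [Finset.sum_boole, ← Set.ncard_coe_finset, one_div, inv_mul_eq_div]
    congr 3
    ext n
    simp only [Finset.coe_filter, Finset.mem_Ioc, Set.mem_ofPred_eq, and_assoc]
    refine and_congr_right fun _ => and_congr_right fun _ => ?_
    have : errorVector α r s n = vv α r s n := by
      funext i
      rw [errorVector, vv, Pool.Agent.Helper22.GC.uu, circleError, Pool.Agent.Helper22.GC.Pe_eq]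
    rw [this]

end Pool.Agent.Results.MP_fb29e9_nt.JointLimitLaw
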