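import Mathlib
import Pool.Agent.Helper82.FK.Quant

/-!
# The Fourier threshold of Koksma's theorem on powers

Koksma: for Lebesgue almost every `x > 1` the powers `x ^ n` are equidistributed modulo one.  We determine which
Fourier decay of a measure is enough for the same conclusion.

* (A decay `O(|t| ^ (-β))` with `β > 1/2` forces a square integrable density, so that Koksma's theorem applies.)
* Decay `O(|t| ^ (-β))` for all `β < 1/2` together is enough, for all the sequences `P(x) x ^ (s k) + c k`, and decay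
  with one exponent `β < 1/2` bounds the exponential sums by `O(sqrt (1/2 - β) N)`.
* Decay with one exponent `β < 1/2` is not enough: in every interval there is such a measure for almost all points
  of which the means of `cos (2 π α ^ n)` tend to `ρ ≥ c (1/2 - β)`, although these points have transcendence measures
  of the best possible order in the height.

The theorem `result` says this.  The theorems `exceptional_cover` and `exceptional_dimension` (the exceptional set is a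
countable union of sets of Hausdorff dimension less than one) and `barrier` (the points of the last item have all the
Diophantine properties that are known for most powers of `e`) are supplements.
-/

set_option autoImplicit false

namespace Pool.Agent.Results.MP_9056e9_nt.KoksmaThreshold

open Polynomial MeasureTheory Filter Topology Set

/-- the sequence `u 0, u 1, ...` is equidistributed modulo one -/
def EquidistributedModOne (u : ℕ → ℝ) : Prop :=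
  ∀ α β : ℝ, 0 ≤ α → α < β → β ≤ 1 → Tendsto (fun N : ℕ =>
    (((Finset.range N).filter (fun k => α ≤ Int.fract (u k) ∧ Int.fract (u k) < β)).card : ℝ) / N) atTop (𝓝 (β - α))

/-- the points with badly distributed powers lie in a countable union of sets of Hausdorff dimension less than one -/
theorem exceptional_cover :
    (∀ P : ℝ[X], P ≠ 0 → ∀ s : ℕ → ℕ, StrictMono s → ∀ A : ℝ, (∀ k, (s k : ℝ) ≤ A * (k + 1)) → ∀ c : ℕ → ℝ,
      ∃ E : ℕ → Set ℝ, (∀ j, dimH (E j) < 1) ∧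
        {x | 1 < x ∧ ¬ EquidistributedModOne (fun k => P.eval x * x ^ s k + c k)} ⊆ ⋃ j, E j) := by
  intro P hP s hs A hA c
  exact Pool.Agent.Helper82.FK.exc_cover hP hs hA c

/-- the dimension of the set of points with exponential sums at least `δ N` infinitely often -/
theorem exceptional_dimension :
    (∀ a : ℝ, 1 < a → ∃ κ : ℝ, 0 < κ ∧ ∀ b : ℝ, a < b → ∀ P : ℝ[X], (∀ x ∈ Icc a b, P.eval x ≠ 0) →
      ∀ s : ℕ → ℕ, StrictMono s → ∀ A : ℝ, 1 ≤ A → (∀ k, (s k : ℝ) ≤ A * (k + 1)) → ∀ (c : ℕ → ℝ) (δ : ℝ),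
      0 < δ → δ ≤ 1 →
      dimH {x | x ∈ Icc a b ∧ ∃ᶠ N : ℕ in atTop, δ * N ≤
        ‖∑ k ∈ Finset.range N, Complex.exp (2 * Real.pi * Complex.I * (P.eval x * x ^ s k + c k : ℝ))‖} ≤
        ENNReal.ofReal (1 - κ * δ ^ 2 / (A * Real.log b))) := by
  have he : ∀ y : ℝ, Complex.exp (2 * Real.pi * Complex.I * (y : ℝ)) = Pool.Agent.Helper82.FK.e y := by
    intro y
    unfold Pool.Agent.Helper82.FK.e
    congr 1
    push_cast
    ring
  intro a ha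
  obtain ⟨κ, hκ, h⟩ := Pool.Agent.Helper82.FK.dim_large ha
  simp only [he]
  exact ⟨κ, hκ, h⟩

/-- decay with one exponent below one half is not enough, even for points with the Diophantine properties (b) - (f) -/
theorem barrier :
    (∀ a : ℝ, 1 < a → ∃ c₀ : ℝ, 0 < c₀ ∧ ∀ b β : ℝ, a < b → 0 ≤ β → β < 1 / 2 →
      ∃ μ : Measure ℝ, IsProbabilityMeasure μ ∧ μ (Icc a b)ᶜ = 0 ∧
      (∃ C : ℝ, ∀ t : ℝ, 1 ≤ |t| → ‖charFun μ t‖ ≤ C * |t| ^ (-β)) ∧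
      ∃ ρ : ℝ, c₀ * (1 / 2 - β) ≤ ρ ∧ ∀ᵐ α ∂μ,
      -- (a) the powers are not equidistributed, with a positive mean of the cosines
      ¬ EquidistributedModOne (fun n => α ^ (n + 1)) ∧
      Tendsto (fun N : ℕ => (∑ n ∈ Finset.range N, Real.cos (2 * Real.pi * α ^ (n + 1))) / N) atTop (𝓝 ρ) ∧
      -- (b) linear forms in powers of `α` with `S`-units
      (∀ S : Finset ℕ, (∀ p ∈ S, 1 ≤ p) → ∃ C : ℝ, 0 < C ∧ ∀ (k N : ℕ) (u : Fin (k + 1) → ℝ) (v : Fin (k + 1) → ℤ)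
        (H m : ℝ), 1 ≤ k → (∀ c, ∃ e : ℕ → ℤ, (∀ p ∈ S, |e p| ≤ N) ∧ u c = ∏ p ∈ S, (p : ℝ) ^ (e p)) → v ≠ 0 →
        1 ≤ H → (∀ c, |(v c : ℝ)| ≤ H) → (∀ c, m ≤ u c) →
        m * Real.exp (-(C * (k : ℝ) ^ 5 * (1 + Real.log (1 + Real.log H) + Real.log (1 + N)))) ≤
          |∑ c, (v c : ℝ) * u c * α ^ (c : ℕ)| * ∏ i : Fin k, max 1 |(v i.succ : ℝ)|) ∧
      -- (c) transcendence measure, uniform in the degree
      (∃ C : ℝ, 0 < C ∧ ∀ (k : ℕ) (p : ℤ[X]) (H : ℝ), 1 ≤ k → p ≠ 0 → p.natDegree ≤ k → 1 ≤ H →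
        (∀ i, |(p.coeff i : ℝ)| ≤ H) → Real.exp (-(C * k * (k + Real.log H))) ≤ |aeval α p|) ∧
      -- (d) anti-concentration
      (∀ (r : ℕ) (η : ℝ), 0 < η → ∃ c C : ℝ, 0 < c ∧ ∀ x : ℝ, x ≠ 0 → ∀ P : ℝ[X], P.natDegree ≤ r → ∀ N : ℕ, 1 ≤ N →
        ({n : ℕ | 1 ≤ n ∧ n ≤ N ∧ |x * α ^ n - P.eval (n : ℝ) - round (x * α ^ n - P.eval (n : ℝ))| ≤
          Real.exp (-(η * n))}.ncard : ℝ) ≤ C * ((N : ℝ) ^ (1 - c) + |Real.log (|x|)|)) ∧
      -- (e) Ridout's theorem for most powers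
      (∀ (S : Finset ℕ), (∀ p ∈ S, 2 ≤ p) → ∀ A η : ℝ, 0 < η → ∃ c δ C : ℝ, 0 < c ∧ 0 < δ ∧
        ∀ x : ℝ, x ≠ 0 → ∀ N : ℕ, 1 ≤ N →
        ({n : ℕ | 1 ≤ n ∧ n ≤ N ∧ ∃ (e : ℕ → ℤ) (q m : ℤ), (∀ p ∈ S, |(e p : ℝ)| ≤ A * n) ∧
          1 ≤ q ∧ (q : ℝ) ≤ Real.exp (δ * n) ∧ m ≠ 0 ∧
          |x * α ^ n - (m / q : ℝ) * ∏ p ∈ S, (p : ℝ) ^ (e p)| ≤
            (1 / q : ℝ) * (∏ p ∈ S, (p : ℝ) ^ (e p)) * Real.exp (-(η * n))}.ncard : ℝ) ≤
          C * ((N : ℝ) ^ (1 - c) + |Real.log (|x|)|)) ∧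
      -- (f) almost all integer multiples
      (∀ (s : ℕ) (A η : ℝ), 0 < η → ∃ c : ℝ, 0 < c ∧ ∃ N₀ : ℕ, ∀ N : ℕ, N₀ ≤ N → ∀ K : ℕ, Real.exp (η * N) ≤ K →
        ∀ x : ℝ, Real.exp (-(η / 4 * N)) ≤ |x| → |x| ≤ Real.exp (A * N) → ∀ y : ℝ,
        ∀ S : Finset ℕ, S ⊆ Finset.Icc 1 N →
        ({k : ℕ | 1 ≤ k ∧ k ≤ K ∧ ¬ ∀ P : ℝ[X], P.natDegree ≤ s → ∀ β γ : ℝ, 0 ≤ β → β < γ → γ ≤ 1 →
          |((S.filter (fun n : ℕ => β ≤ Int.fract ((k + y) * x * α ^ n + P.eval (n : ℝ)) ∧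
              Int.fract ((k + y) * x * α ^ n + P.eval (n : ℝ)) < γ)).card : ℝ) -
            (γ - β) * S.card| ≤ (N : ℝ) ^ (1 - c)}.ncard : ℝ) ≤ K * (N : ℝ) ^ (-c))) := by
  intro a ha
  obtain ⟨c, hc, hb⟩ := Pool.Agent.Helper82.FK.below' ha
  refine ⟨c, hc, fun b β hab hβ0 hβ => ?_⟩
  obtain ⟨μ, hμ, hsupp, hC, ρ, hρ, hae⟩ := hb b β hab hβ0 hβ
  refine ⟨μ, hμ, hsupp, hC, ρ, hρ, ?_⟩
  filter_upwards [hae] with α hα
  obtain ⟨h1, h2, h3, h4, h5⟩ := hα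
  exact ⟨h3, h2, Pool.Agent.Helper46.TD.bf h1 h4 h5⟩

theorem result :
    -- (1) decay with all exponents below one half is enough
    (∀ μ : Measure ℝ, IsFiniteMeasure μ →
      (∀ β : ℝ, β < 1 / 2 → ∃ C : ℝ, ∀ t : ℝ, 1 ≤ |t| → ‖charFun μ t‖ ≤ C * |t| ^ (-β)) →
      ∀ P : ℝ[X], P ≠ 0 → ∀ s : ℕ → ℕ, StrictMono s → ∀ A : ℝ, (∀ k, (s k : ℝ) ≤ A * (k + 1)) → ∀ c : ℕ → ℝ,
      ∀ᵐ x ∂μ, 1 < x → EquidistributedModOne (fun k => P.eval x * x ^ s k + c k)) ∧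
    -- (1') decay with one exponent below one half
    (∀ a : ℝ, 1 < a → ∃ K : ℝ, 0 < K ∧ ∀ b : ℝ, a < b → ∀ P : ℝ[X], (∀ x ∈ Icc a b, P.eval x ≠ 0) →
      ∀ s : ℕ → ℕ, StrictMono s → ∀ A : ℝ, 1 ≤ A → (∀ k, (s k : ℝ) ≤ A * (k + 1)) → ∀ (c : ℕ → ℝ) (β : ℝ),
      β < 1 / 2 → ∀ μ : Measure ℝ, IsFiniteMeasure μ →
      (∃ C : ℝ, ∀ t : ℝ, 1 ≤ |t| → ‖charFun μ t‖ ≤ C * |t| ^ (-β)) →
      ∀ᵐ x ∂μ, x ∈ Icc a b → ∀ δ : ℝ, K * Real.sqrt ((1 / 2 - β) * (A * Real.log b)) < δ → ∀ᶠ N : ℕ in atTop,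
        ‖∑ k ∈ Finset.range N, Complex.exp (2 * Real.pi * Complex.I * (P.eval x * x ^ s k + c k : ℝ))‖ ≤ δ * N) ∧
    -- (2) decay with one exponent below one half is not enough
    (∀ a : ℝ, 1 < a → ∃ c₀ : ℝ, 0 < c₀ ∧ ∀ b β : ℝ, a < b → 0 ≤ β → β < 1 / 2 →
      ∃ μ : Measure ℝ, IsProbabilityMeasure μ ∧ μ (Icc a b)ᶜ = 0 ∧
      (∃ C : ℝ, ∀ t : ℝ, 1 ≤ |t| → ‖charFun μ t‖ ≤ C * |t| ^ (-β)) ∧
      ∃ ρ : ℝ, c₀ * (1 / 2 - β) ≤ ρ ∧ ∀ᵐ α ∂μ,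
      -- the powers are not equidistributed, with a positive mean of the cosines
      ¬ EquidistributedModOne (fun n => α ^ (n + 1)) ∧
      Tendsto (fun N : ℕ => (∑ n ∈ Finset.range N, Real.cos (2 * Real.pi * α ^ (n + 1))) / N) atTop (𝓝 ρ) ∧
      -- although the transcendence measure is of the best possible order in the height
      (∃ C : ℝ, 0 < C ∧ ∀ (k : ℕ) (p : ℤ[X]) (H : ℝ), 1 ≤ k → p ≠ 0 → p.natDegree ≤ k → 1 ≤ H →
        (∀ i, |(p.coeff i : ℝ)| ≤ H) → Real.exp (-(C * k * (k + Real.log H))) ≤ |aeval α p|)) := by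
  have he : ∀ y : ℝ, Complex.exp (2 * Real.pi * Complex.I * (y : ℝ)) = Pool.Agent.Helper82.FK.e y := by
    intro y
    unfold Pool.Agent.Helper82.FK.e
    congr 1
    push_cast
    ring
  refine ⟨?_, ?_, ?_⟩
  · intro μ hμ hdec P hP s hs A hA c
    refine Pool.Agent.Helper82.FK.ae_equi (fun E hE => Pool.Agent.Helper82.FK.null_of_decay μ (fun η hη => ?_) hE) hP hs hA c
    obtain ⟨C, hC⟩ := hdec (1 / 2 - η) (by linarith)
    refine ⟨C, fun t ht => ?_⟩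
    have h1 := hC t ht
    rwa [neg_sub, sub_eq_neg_add] at h1
  · intro a ha
    obtain ⟨K, hK, h⟩ := Pool.Agent.Helper82.FK.near ha
    simp only [he]
    exact ⟨K, hK, h⟩
  · intro a ha
    obtain ⟨c, hc, hb⟩ := barrier a ha
    refine ⟨c, hc, fun b β hab hβ0 hβ => ?_⟩
    obtain ⟨μ, hμ, hsupp, hC, ρ, hρ, hae⟩ := hb b β hab hβ0 hβ
    refine ⟨μ, hμ, hsupp, hC, ρ, hρ, ?_⟩
    filter_upwards [hae] with α hα
    exact ⟨hα.1, hα.2.1, hα.2.2.2.1⟩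

end Pool.Agent.Results.MP_9056e9_nt.KoksmaThreshold
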