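import Mathlib
import Pool.Agent.Helper46.CMConv
import Pool.Agent.Helper46.TK.Final
import Pool.Agent.Helper59.WD.Box

/-!
# Random perturbations of the powers of real numbers, down to dimension zero

Let `b ≥ 2` be an integer and `X = ∑ ξ_k b^(-k)` with independent bounded integer valued `ξ_k`,
such that `ξ_k` takes no value with probability more than `1 - p_k`, where
`p_k log k / log log k` tends to infinity (the law of `X` may have dimension zero).  Let
`a 0 < a 1 < ...` be integers of positive lower density.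

A function is nice if it is differentiable and its derivative is locally Hölder continuous and has
only countably many zeros.  Let `f_1, ..., f_d` and `g_1, ..., g_s` be nice, `g_l = g_m` only on a
countable set for `l ≠ m`.  Let `β_1, ..., β_d > 1` be distinct, `log β_i / log b` irrational,
`v_ij n = ρ_ij β_i^n + O(γ_i^n)`, `γ_i < β_i`, `j ≤ k`, with `ρ_i1, ..., ρ_ik` linearly
independent over the rational numbers, and `σ_1, ..., σ_s ≠ 0`.

(1) Almost surely, if all `g_l(X) > 1`, the points with the coordinates `f_i(X) v_ij(a n) + c n i j`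
and `σ_l g_l(X)^(a n) + c n l` are equidistributed in the torus of dimension `dk + s`.

(2) If `log β / log b` is rational, then `x β^n` is not equidistributed for any `x` with the base
`b` digits in a proper subset of `{0, ..., b-1}`.

Examples for (1): `f(X) e^(n+j)`, `f(X) π^(n+j)`, `j < k`, with `f(x) = x` or `f(x) = e^x`, jointly
with `(e + X)^n`, `(π + X)^n`, `e^(n X)`.
-/

namespace Pool.Agent.Results.MP_9056e9_nt.RandomPerturbations

open Finset MeasureTheory ProbabilityTheory Filter Topology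

open scoped Classical in
/-- The sequence `u` of vectors is equidistributed modulo one. -/
def UD {ι : Type} [Fintype ι] (u : ℕ → ι → ℝ) : Prop :=
  ∀ s t : ι → ℝ, (∀ i, 0 ≤ s i ∧ s i < t i ∧ t i ≤ 1) →
    Tendsto (fun N : ℕ => (((range N).filter
      (fun n => ∀ i, s i ≤ Int.fract (u n i) ∧ Int.fract (u n i) < t i)).card : ℝ) / N) atTop
      (𝓝 (∏ i, (t i - s i)))

/-- `f` is differentiable and its derivative is locally Hölder continuous and has only countably
many zeros. -/
def Nice (f : ℝ → ℝ) : Prop :=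
  Differentiable ℝ f ∧
  (∀ M : ℝ, ∃ K δ : ℝ, 0 < δ ∧
    ∀ x y : ℝ, |x| ≤ M → |y| ≤ M → |deriv f x - deriv f y| ≤ K * |x - y| ^ δ) ∧
  {x : ℝ | deriv f x = 0}.Countable

theorem ud_unit (u : ℕ → ℝ) : UD (fun n (_ : Unit) => u n) ↔
    ∀ s t : ℝ, 0 ≤ s → s < t → t ≤ 1 →
      Tendsto (fun N : ℕ => (((range N).filter
        (fun n => s ≤ Int.fract (u n) ∧ Int.fract (u n) < t)).card : ℝ) / N) atTop
        (𝓝 (t - s)) := by
  classical
  constructor
  · intro h s t h1 h2 h3
    have h4 := h (fun _ => s) (fun _ => t) (fun _ => ⟨h1, h2, h3⟩)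
    rw [Fintype.prod_unique] at h4
    refine h4.congr fun N => ?_
    congr 3
    ext n
    simp only [mem_filter, mem_range]
    exact and_congr_right fun _ => ⟨fun h => h (), fun h i => h⟩
  · intro h s t hst
    have h4 := h (s ()) (t ()) (hst ()).1 (hst ()).2.1 (hst ()).2.2
    rw [Fintype.prod_unique]
    refine h4.congr fun N => ?_
    congr 3
    ext n
    simp only [mem_filter, mem_range]
    exact and_congr_right fun _ => ⟨fun h i => h, fun h => h ()⟩

/-- Weyl's criterion. -/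
theorem ud_of_weyl {ι : Type} [Fintype ι] (u : ℕ → ι → ℝ)
    (hu : ∀ h : ι → ℤ, h ≠ 0 → Tendsto (fun N : ℕ => (∑ n ∈ range N,
      Pool.Agent.Helper59.RE.e (∑ i, h i * u n i)) / N) atTop (𝓝 0)) : UD u := by
  intro s t hst
  exact Pool.Agent.Helper59.WD.weyl u hu s t (fun i => (hst i).1) (fun i => (hst i).2.1.le)
    (fun i => (hst i).2.2)

theorem result (b : ℕ) (hb : 2 ≤ b) :
    (∀ {Ω : Type*} [MeasurableSpace Ω] (μ : Measure Ω) [IsProbabilityMeasure μ]
        (ξ : ℕ → Ω → ℤ), (∀ k, Measurable (ξ k)) → iIndepFun ξ μ →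
      ∀ C : ℕ, (∀ k, ∀ᵐ ω ∂μ, |ξ k ω| ≤ C) →
      ∀ p : ℕ → ℝ, (∀ (k : ℕ) (j : ℤ), μ.real {ω | ξ k ω = j} ≤ 1 - p k) →
        Tendsto (fun k : ℕ => p k * (Real.log k / Real.log (Real.log k))) atTop atTop →
      ∀ X : Ω → ℝ, (∀ ω, X ω = ∑' k : ℕ, (ξ k ω : ℝ) / (b : ℝ) ^ k) →
      ∀ (a : ℕ → ℕ) (D : ℕ), StrictMono a → (∀ n, a n ≤ D * (n + 1)) →
      ∀ (d k s : ℕ) (β γ K : Fin d → ℝ) (ρ : Fin d → Fin k → ℝ) (v : Fin d → Fin k → ℕ → ℝ)
        (σ : Fin s → ℝ) (f : Fin d → ℝ → ℝ) (g : Fin s → ℝ → ℝ),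
        Function.Injective β → (∀ i, 1 < β i) → (∀ i, Irrational (Real.log (β i) / Real.log b)) →
        (∀ i, 0 ≤ γ i ∧ γ i < β i) → (∀ i, LinearIndependent ℚ (ρ i)) →
        (∀ i j n, |v i j n - ρ i j * β i ^ n| ≤ K i * γ i ^ n) → (∀ l, σ l ≠ 0) →
        (∀ i, Nice (f i)) → (∀ l, Nice (g l)) → (∀ l m, l ≠ m → {x | g l x = g m x}.Countable) →
        ∀ c : ℕ → (Fin d × Fin k) ⊕ Fin s → ℝ,
          ∀ᵐ ω ∂μ, (∀ l, 1 < g l (X ω)) → UD (fun n (x : (Fin d × Fin k) ⊕ Fin s) =>
            Sum.elim (fun y : Fin d × Fin k => f y.1 (X ω) * v y.1 y.2 (a n))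
              (fun l => σ l * g l (X ω) ^ a n) x + c n x)) ∧
    (∀ β : ℝ, 1 < β → ¬ Irrational (Real.log β / Real.log b) →
      ∀ (A : Finset ℕ) (d : ℕ → ℕ), A ⊂ range b → (∀ k, d k ∈ A) →
        ¬ UD (fun n (_ : Unit) => (∑' k : ℕ, (d k : ℝ) / (b : ℝ) ^ (k + 1)) * β ^ n)) := by
  constructor
  · intro Ω _ μ _ ξ hξ hind C hC p hp hp' X hX a D ha haD d k s β γ K ρ v σ f g hinj hβ hirr hγ
      hρ hv hσ hf hg hgg c
    obtain ⟨ξ', hT, hae⟩ := Pool.Agent.Helper46.TK.exists_thin μ b hb ξ hξ hind C hC p hp hp'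
    have h1 := Pool.Agent.Helper46.TK.joint_ud μ b C ξ' p hT D a ha haD β γ K hinj hβ hirr
      (fun i => (hγ i).1) (fun i => (hγ i).2) ρ hρ v hv f
      (fun i => ⟨(hf i).1, (hf i).2.1⟩) (fun i => (hf i).2.2) g
      (fun l => ⟨(hg l).1, (hg l).2.1⟩) (fun l => (hg l).2.2) hgg σ hσ c
    filter_upwards [h1, hae] with ω h2 h3
    rw [← hX] at h3
    rw [h3] at h2
    intro h4
    exact ud_of_weyl _ (h2 h4)
  · intro β hβ hrat A d hA hd
    have hlb : 0 < Real.log b := Real.log_pos (by exact_mod_cast (by omega : 1 < b))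
    have hlβ : 0 < Real.log β := Real.log_pos hβ
    have hbR : (0 : ℝ) < b := by exact_mod_cast (by omega : 0 < b)
    rw [Irrational, not_not] at hrat
    obtain ⟨x, hx⟩ := hrat
    have hx0 : 0 < x := by
      have h1 : (0 : ℝ) < (x : ℝ) := by rw [hx]; positivity
      exact_mod_cast h1
    have hnum : 0 < x.num := Rat.num_pos.2 hx0
    have hpow : β ^ x.den = (b : ℝ) ^ x.num.toNat := by
      have h1 : (x.den : ℝ) * Real.log β = x.num * Real.log b := by
        have h2 : (x : ℝ) = x.num / x.den := Rat.cast_def x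
        have h3 : (x.den : ℝ) ≠ 0 := by exact_mod_cast x.pos.ne'
        rw [h2, div_eq_div_iff h3 hlb.ne'] at hx
        linarith
      apply Real.log_injOn_pos (Set.mem_Ioi.2 (by positivity)) (Set.mem_Ioi.2 (by positivity))
      rw [Real.log_pow, Real.log_pow, h1]
      congr 1
      have h4 : ((x.num.toNat : ℤ) : ℝ) = (x.num : ℝ) := by
        rw [Int.toNat_of_nonneg hnum.le]
      rw [← h4]
      norm_cast
    rw [ud_unit]
    exact Pool.Agent.Helper46.CMConv.conv b x.den x.num.toNat hb x.pos β hpow A hA d hd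

end Pool.Agent.Results.MP_9056e9_nt.RandomPerturbations
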